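import Mathlib

set_option autoImplicit false

/-!
Noncommutative polynomials without constant term, polynomial identities, the varieties `M(n)` and
`S(n)`, quasi-identities.
-/

namespace Pool.Agent.H861R2.EqP

universe u

/-- The product `a₁ a₂ ⋯ a_k` of a nonempty list of elements of an associative ring without unit;
the empty list gets the value `0`. -/
def mulList {A : Type*} [NonUnitalRing A] : List A → A
  | [] => 0
  | a :: l => l.foldl (· * ·) a

/-- A noncommutative polynomial without constant term in the variables `x 0, x 1, …` is given by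
a finite list of terms; a term is a pair of a coefficient and a word, that is a list of indices of
variables; terms with an empty word are ignored. This is its value at `x`. -/
def evalF {F A : Type*} [Field F] [NonUnitalRing A] [Module F A] (p : List (F × List ℕ))
    (x : ℕ → A) : A :=
  (p.map fun t => t.1 • mulList (t.2.map x)).sum

/-- A polynomial with rational coefficients as a finite object: the coefficient `a / (b + 1)` is
given by the pair `(a, b)`. -/
abbrev QPoly : Type := List ((ℤ × ℕ) × List ℕ)

/-- the polynomial over `F` given by a polynomial with rational coefficients -/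
def QPoly.toF (F : Type*) [Field F] (p : QPoly) : List (F × List ℕ) :=
  p.map fun t => ((t.1.1 : F) / ((t.1.2 + 1 : ℕ) : F), t.2)

/-- The algebra `A` belongs to the variety `M(n)` generated by `M_n(F)`: every polynomial identity
of `M_n(F)` holds in `A`. -/
def InM (F : Type*) [Field F] (n : ℕ) (A : Type*) [NonUnitalRing A] [Module F A] : Prop :=
  ∀ p : List (F × List ℕ), (∀ x : ℕ → Matrix (Fin n) (Fin n) F, evalF p x = 0) →
    ∀ x : ℕ → A, evalF p x = 0

/-- the value `∑_σ sgn(σ) y_{σ(1)} ⋯ y_{σ(n)}` of the standard polynomial `s_n` -/
def standard {A : Type*} [NonUnitalRing A] {n : ℕ} (y : Fin n → A) : A :=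
  ∑ σ : Equiv.Perm (Fin n), (Equiv.Perm.sign σ : ℤ) • mulList (List.ofFn fun i => y (σ i))

/-- The algebra `A` belongs to the variety `S(n)` defined by the identity `s_n = 0`. -/
def InS (n : ℕ) (A : Type*) [NonUnitalRing A] : Prop :=
  ∀ y : Fin n → A, standard y = 0

/-- The quasi-identity `u₁ = 0 ∧ ⋯ ∧ u_k = 0 → u = 0`, given by the list of the `u_i` and by `u`,
holds in the algebra `A`. -/
def Holds (F : Type*) [Field F] (us : List QPoly) (w : QPoly) (A : Type*) [NonUnitalRing A]
    [Module F A] : Prop :=
  ∀ x : ℕ → A, (∀ p ∈ us, evalF (p.toF F) x = 0) → evalF (w.toF F) x = 0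

section Lemmas

theorem foldl_map {A B : Type*} [NonUnitalRing A] [NonUnitalRing B] (f : A →ₙ+* B) (l : List A)
    (a : A) : f (l.foldl (· * ·) a) = (l.map f).foldl (· * ·) (f a) := by
  induction l generalizing a with
  | nil => rfl
  | cons b l ih => rw [List.foldl_cons, ih, map_mul, List.map_cons, List.foldl_cons]

theorem mulList_map {A B : Type*} [NonUnitalRing A] [NonUnitalRing B] (f : A →ₙ+* B)
    (l : List A) : f (mulList l) = mulList (l.map f) := by
  cases l with
  | nil => exact map_zero f
  | cons a l => exact foldl_map f l a

theorem mulList_eq_prod {A : Type*} [Ring A] {l : List A} (h : l ≠ []) : mulList l = l.prod := by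
  cases l with
  | nil => exact absurd rfl h
  | cons a l =>
    change l.foldl (· * ·) a = _
    rw [List.prod_eq_foldl, List.foldl_cons, one_mul]

theorem evalF_map {F A B : Type*} [Field F] [NonUnitalRing A] [NonUnitalRing B] [Module F A]
    [Module F B] (f : A →ₙₐ[F] B) (p : List (F × List ℕ)) (x : ℕ → A) :
    f (evalF p x) = evalF p (fun i => f (x i)) := by
  unfold evalF
  rw [map_list_sum, List.map_map]
  congr 1
  apply List.map_congr_left
  intro t _
  change f (t.1 • mulList (t.2.map x)) = t.1 • mulList (t.2.map fun i => f (x i))
  rw [map_smul]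
  have := mulList_map (f : A →ₙ+* B) (t.2.map x)
  rw [List.map_map] at this
  exact congrArg _ this

theorem standard_map {A B : Type*} [NonUnitalRing A] [NonUnitalRing B] (f : A →ₙ+* B) {n : ℕ}
    (y : Fin n → A) : f (standard y) = standard (fun i => f (y i)) := by
  unfold standard
  rw [map_sum]
  apply Finset.sum_congr rfl
  intro σ _
  rw [map_zsmul, mulList_map, List.map_ofFn]
  rfl

theorem standard_map_alg {F A B : Type*} [Field F] [NonUnitalRing A] [NonUnitalRing B]
    [Module F A] [Module F B] (f : A →ₙₐ[F] B) {n : ℕ}
    (y : Fin n → A) : f (standard y) = standard (fun i => f (y i)) :=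
  standard_map (f : A →ₙ+* B) y

end Lemmas

end Pool.Agent.H861R2.EqP
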