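import Mathlib
import Pool.Agent.Helper599.Source

set_option autoImplicit false

/-!
The machine, its letters, and the module on which the letters act.
-/

namespace Pool.Agent.H861R2.EqP

open Pool.Agent.Helper599.Core

universe u

/-- middle letters -/
abbrev St {Q : Type} (M : Sys Q Bool) : Type := Option Q ⊕ (Q × (Bool → Fin M.B))

/-- letters -/
inductive Lt {Q : Type} (M : Sys Q Bool) : Type
  | u | w
  | x (j : Bool)
  | z (j : Bool)
  | v (s : St M)

variable {Q : Type} (M : Sys Q Bool)

/-- the configuration read off the two blocks leads to a halt -/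
def hv : St M → (Bool → ℕ) → (Bool → ℕ) → Prop
  | .inl o, b, c => M.Halts o (fun j => b j + M.B * c j)
  | .inr (q, r), b, c => M.Halts (M.nxt q r) (fun j => b j + M.a q r j * c j)

/-- states of the reading automaton -/
inductive State
  | s0
  | s1 (b : Bool → ℕ)
  | s2 (s : St M) (b c : Bool → ℕ)
  | s3 (s : St M) (b c : Bool → ℕ)
  | dead

/-- unit vector -/
def e1 (j : Bool) : Bool → ℕ := Pi.single j 1

/-- reading a letter -/
def step : State M → Lt M → State M
  | .s0, .u => .s1 0
  | .s1 b, .x j => .s1 (b + e1 j)
  | .s1 b, .v s => .s2 s b 0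
  | .s2 s b c, .z j => .s2 s b (c + e1 j)
  | .s2 s b c, .w => .s3 s b c
  | _, _ => .dead

@[simp] theorem step_dead (l : Lt M) : step M .dead l = .dead := by cases l <;> rfl
@[simp] theorem step_s3 (s : St M) (b c : Bool → ℕ) (l : Lt M) : step M (.s3 s b c) l = .dead := by
  cases l <;> rfl

/-- reading a word -/
def run (σ : State M) (W : List (Lt M)) : State M := W.foldl (step M) σ

@[simp] theorem run_nil (σ : State M) : run M σ [] = σ := rfl
@[simp] theorem run_cons (σ : State M) (l : Lt M) (W : List (Lt M)) :
    run M σ (l :: W) = run M (step M σ l) W := rfl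
theorem run_append (σ : State M) (W W' : List (Lt M)) :
    run M σ (W ++ W') = run M (run M σ W) W' := List.foldl_append

@[simp] theorem run_dead (W : List (Lt M)) : run M .dead W = .dead := by
  induction W with
  | nil => rfl
  | cons l W ih => rw [run_cons, step_dead, ih]

/-- word of a vector in the first block -/
def xw (b : Bool → ℕ) : List (Lt M) :=
  List.replicate (b true) (.x true) ++ List.replicate (b false) (.x false)

/-- word of a vector in the second block -/
def zw (b : Bool → ℕ) : List (Lt M) :=
  List.replicate (b true) (.z true) ++ List.replicate (b false) (.z false)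

theorem run_rep_x (j : Bool) (n : ℕ) (b : Bool → ℕ) :
    run M (.s1 b) (List.replicate n (.x j)) = .s1 (b + n • e1 j) := by
  induction n generalizing b with
  | zero => simp
  | succ n ih =>
    rw [List.replicate_succ, run_cons]
    change run M (.s1 (b + e1 j)) _ = _
    rw [ih]
    congr 1
    rw [add_assoc, succ_nsmul']

theorem run_rep_z (j : Bool) (n : ℕ) (s : St M) (b c : Bool → ℕ) :
    run M (.s2 s b c) (List.replicate n (.z j)) = .s2 s b (c + n • e1 j) := by
  induction n generalizing c with
  | zero => simp
  | succ n ih =>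
    rw [List.replicate_succ, run_cons]
    change run M (.s2 s b (c + e1 j)) _ = _
    rw [ih]
    congr 1
    rw [add_assoc, succ_nsmul']

theorem vec_eq (b : Bool → ℕ) : b true • e1 true + b false • e1 false = b := by
  funext j
  cases j <;> simp [e1]

theorem run_xw (b b' : Bool → ℕ) : run M (.s1 b) (xw M b') = .s1 (b + b') := by
  rw [xw, run_append, run_rep_x, run_rep_x, add_assoc, vec_eq]

theorem run_zw (s : St M) (b c c' : Bool → ℕ) :
    run M (.s2 s b c) (zw M c') = .s2 s b (c + c') := by
  rw [zw, run_append, run_rep_z, run_rep_z, add_assoc, vec_eq]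

section Module

variable (F : Type u) [Field F]

/-- the module: functions on the states of the automaton which do not see the difference of
equivalent configurations -/
def V : Submodule F (State M → F) where
  carrier := {φ | φ .dead = 0 ∧
    (∀ s b c s' b' c', (∀ d, hv M s b (c + d) ↔ hv M s' b' (c' + d)) →
      φ (.s2 s b c) = φ (.s2 s' b' c')) ∧
    (∀ s b c s' b' c', (hv M s b c ↔ hv M s' b' c') → φ (.s3 s b c) = φ (.s3 s' b' c')) ∧
    (∀ s b c, (∀ d, hv M s b (c + d)) → φ (.s2 s b c) = 0) ∧
    (∀ s b c, hv M s b c → φ (.s3 s b c) = 0)}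
  zero_mem' := by
    refine ⟨rfl, ?_, ?_, ?_, ?_⟩ <;> intros <;> rfl
  add_mem' := by
    rintro φ ψ ⟨h0, h1, h2, h3, h4⟩ ⟨g0, g1, g2, g3, g4⟩
    refine ⟨?_, ?_, ?_, ?_, ?_⟩
    · simp [h0, g0]
    · intro s b c s' b' c' h
      simp [h1 _ _ _ _ _ _ h, g1 _ _ _ _ _ _ h]
    · intro s b c s' b' c' h
      simp [h2 _ _ _ _ _ _ h, g2 _ _ _ _ _ _ h]
    · intro s b c h
      simp [h3 _ _ _ h, g3 _ _ _ h]
    · intro s b c h
      simp [h4 _ _ _ h, g4 _ _ _ h]
  smul_mem' := by
    rintro a φ ⟨h0, h1, h2, h3, h4⟩
    refine ⟨?_, ?_, ?_, ?_, ?_⟩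
    · simp [h0]
    · intro s b c s' b' c' h
      simp [h1 _ _ _ _ _ _ h]
    · intro s b c s' b' c' h
      simp [h2 _ _ _ _ _ _ h]
    · intro s b c h
      simp [h3 _ _ _ h]
    · intro s b c h
      simp [h4 _ _ _ h]

theorem op_mem (l : Lt M) (φ : State M → F) (hφ : φ ∈ V M F) :
    (fun σ => φ (step M σ l)) ∈ V M F := by
  obtain ⟨h0, h1, h2, h3, h4⟩ := hφ
  refine ⟨?_, ?_, ?_, ?_, ?_⟩
  · simpa using h0
  · intro s b c s' b' c' h
    cases l with
    | z j =>
      change φ (.s2 s b (c + e1 j)) = φ (.s2 s' b' (c' + e1 j))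
      apply h1
      intro d
      rw [add_assoc, add_assoc]
      exact h _
    | w =>
      change φ (.s3 s b c) = φ (.s3 s' b' c')
      apply h2
      simpa using h 0
    | u => rfl
    | x j => rfl
    | v s => rfl
  · intro s b c s' b' c' h
    simp
  · intro s b c h
    cases l with
    | z j =>
      change φ (.s2 s b (c + e1 j)) = 0
      apply h3
      intro d
      rw [add_assoc]
      exact h _
    | w =>
      change φ (.s3 s b c) = 0
      apply h4
      simpa using h 0
    | u => exact h0
    | x j => exact h0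
    | v s => exact h0
  · intro s b c h
    simpa using h0

/-- the module as a type -/
def Vm : Type u := ↥(V M F)

instance : AddCommGroup (Vm M F) := inferInstanceAs (AddCommGroup (V M F))

instance : Module F (Vm M F) := inferInstanceAs (Module F (V M F))

/-- the operator of a letter -/
def op (l : Lt M) : Module.End F (Vm M F) where
  toFun φ := ⟨fun σ => φ.1 (step M σ l), op_mem M F l φ.1 φ.2⟩
  map_add' _ _ := rfl
  map_smul' _ _ := rfl

open Classical in
/-- the final functional -/
noncomputable def fin : Vm M F :=
  ⟨fun σ => match σ with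
    | .s3 s b c => if hv M s b c then 0 else 1
    | _ => 0, by
    refine ⟨rfl, ?_, ?_, ?_, ?_⟩
    · intros; rfl
    · intro s b c s' b' c' h
      simp only [h]
    · intros; rfl
    · intro s b c h
      simp only [h, if_true]⟩

/-- the operator of a word -/
def opW (W : List (Lt M)) : Module.End F (Vm M F) := (W.map (op M F)).prod

theorem opW_apply (W : List (Lt M)) (φ : Vm M F) (σ : State M) :
    (opW M F W φ).1 σ = φ.1 (run M σ W) := by
  induction W generalizing σ with
  | nil => rfl
  | cons l W ih =>
    rw [opW, List.map_cons, List.prod_cons]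
    change (opW M F W φ).1 (step M σ l) = _
    rw [ih]
    rfl

theorem opW_eq {W W' : List (Lt M)} (h : ∀ (φ : Vm M F) σ, φ.1 (run M σ W) = φ.1 (run M σ W')) :
    opW M F W = opW M F W' := by
  refine LinearMap.ext fun φ => Subtype.ext (funext fun σ => ?_)
  rw [opW_apply, opW_apply, h]

end Module

end Pool.Agent.H861R2.EqP
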