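import Mathlib
import Pool.Agent.H861R2.EqP.Core

set_option autoImplicit false

/-!
The defining relations: they hold for the operators, and they make the word of a halting
configuration vanish.
-/

namespace Pool.Agent.H861R2.EqP

open Pool.Agent.Helper599.Core

universe u

variable {Q : Type} (M : Sys Q Bool)

/-- residues as a vector -/
def rv (r : Bool → Fin M.B) : Bool → ℕ := fun j => r j

/-- pairs of words which are to be equal -/
inductive R : List (Lt M) → List (Lt M) → Prop
  | xx : R [.x true, .x false] [.x false, .x true]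
  | zz : R [.z true, .z false] [.z false, .z true]
  | mv (q : Q) (j : Bool) :
      R (List.replicate M.B (.x j) ++ [.v (.inl (some q))]) [.v (.inl (some q)), .z j]
  | t1 (q : Q) (r : Bool → Fin M.B) :
      R (.u :: xw M (rv M r) ++ [.v (.inl (some q))])
        (.u :: xw M (M.b q r) ++ [.v (.inr (q, r))])
  | bk (q : Q) (r : Bool → Fin M.B) (j : Bool) :
      R [.v (.inr (q, r)), .z j] (List.replicate (M.a q r j) (.x j) ++ [.v (.inr (q, r))])
  | t2 (q : Q) (r : Bool → Fin M.B) :
      R [.v (.inr (q, r)), .w] [.v (.inl (M.nxt q r)), .w]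

theorem R_finite [Finite Q] : {p : List (Lt M) × List (Lt M) | R M p.1 p.2}.Finite := by
  have : {p : List (Lt M) × List (Lt M) | R M p.1 p.2} ⊆
      {([.x true, .x false], [.x false, .x true])} ∪ {([.z true, .z false], [.z false, .z true])} ∪
      Set.range (fun p : Q × Bool =>
        ((List.replicate M.B (.x p.2) ++ [.v (.inl (some p.1))] : List (Lt M)),
          ([.v (.inl (some p.1)), .z p.2] : List (Lt M)))) ∪
      Set.range (fun p : Q × (Bool → Fin M.B) =>
        ((.u :: xw M (rv M p.2) ++ [.v (.inl (some p.1))] : List (Lt M)),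
          (.u :: xw M (M.b p.1 p.2) ++ [.v (.inr (p.1, p.2))] : List (Lt M)))) ∪
      Set.range (fun p : Q × (Bool → Fin M.B) × Bool =>
        (([.v (.inr (p.1, p.2.1)), .z p.2.2] : List (Lt M)),
          (List.replicate (M.a p.1 p.2.1 p.2.2) (.x p.2.2) ++ [.v (.inr (p.1, p.2.1))] :
            List (Lt M)))) ∪
      Set.range (fun p : Q × (Bool → Fin M.B) =>
        (([.v (.inr (p.1, p.2)), .w] : List (Lt M)),
          ([.v (.inl (M.nxt p.1 p.2)), .w] : List (Lt M)))) := by
    rintro ⟨a, b⟩ h
    change R M a b at h
    cases h with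
    | xx => simp
    | zz => simp
    | mv q j => exact Or.inl (Or.inl (Or.inl (Or.inr ⟨(q, j), rfl⟩)))
    | t1 q r => exact Or.inl (Or.inl (Or.inr ⟨(q, r), rfl⟩))
    | bk q r j => exact Or.inl (Or.inr ⟨(q, r, j), rfl⟩)
    | t2 q r => exact Or.inr ⟨(q, r), rfl⟩
  refine Set.Finite.subset ?_ this
  exact ((((((Set.finite_singleton _).union (Set.finite_singleton _)).union
    (Set.finite_range _)).union (Set.finite_range _)).union (Set.finite_range _)).union
    (Set.finite_range _))

section Sound

variable {M} {N : Type*} [MonoidWithZero N] (f : Lt M → N)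

/-- value of a word -/
def ev (W : List (Lt M)) : N := (W.map f).prod

theorem ev_append (W W' : List (Lt M)) : ev f (W ++ W') = ev f W * ev f W' := by
  simp [ev]

theorem ev_cons (l : Lt M) (W : List (Lt M)) : ev f (l :: W) = f l * ev f W := by
  simp [ev]

theorem ev_nil : ev f [] = 1 := by simp [ev]

theorem ev_xw (b : Bool → ℕ) : ev f (xw M b) = f (.x true) ^ b true * f (.x false) ^ b false := by
  simp [ev, xw]

/-- the word of a configuration -/
def conf (o : Option Q) (n : Bool → ℕ) : List (Lt M) :=
  .u :: xw M n ++ [.v (.inl o), .w]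

theorem sound (hR : ∀ a b, R M a b → ev f a = ev f b) (h0 : f (.v (.inl none)) = 0)
    {o : Option Q} {n : Bool → ℕ} (h : M.Halts o n) : ev f (conf o n) = 0 := by
  have hxx : Commute (f (.x true)) (f (.x false)) := by
    have := hR _ _ R.xx
    simp only [ev, List.map_cons, List.map_nil, List.prod_cons, List.prod_nil, mul_one] at this
    exact this
  have hadd : ∀ b b' : Bool → ℕ, ev f (xw M (b + b')) = ev f (xw M b) * ev f (xw M b') := by
    intro b b'
    rw [ev_xw, ev_xw, ev_xw, Pi.add_apply, Pi.add_apply, pow_add, pow_add]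
    have := (hxx.pow_pow (b' true) (b false)).eq
    calc _ = f (.x true) ^ b true * (f (.x true) ^ b' true * f (.x false) ^ b false) *
          f (.x false) ^ b' false := by simp only [mul_assoc]
      _ = _ := by rw [this]; simp only [mul_assoc]
  induction h with
  | stop n =>
    simp [conf, ev, h0]
  | step q n _ ih =>
    set r := M.res n with hr
    set m : Bool → ℕ := fun j => n j / M.B with hm
    have hn : n = rv M r + (fun j => M.B * m j) := by
      funext j
      change n j = n j % M.B + M.B * (n j / M.B)
      rw [Nat.mod_add_div]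
    have hmv : ∀ j k, f (.x j) ^ (M.B * k) * f (.v (.inl (some q))) =
        f (.v (.inl (some q))) * f (.z j) ^ k := by
      intro j k
      have h1 : f (.x j) ^ M.B * f (.v (.inl (some q))) = f (.v (.inl (some q))) * f (.z j) := by
        have := hR _ _ (R.mv q j)
        simpa [ev] using this
      induction k with
      | zero => simp
      | succ k ihk =>
        rw [Nat.mul_succ, pow_add, mul_assoc, h1, ← mul_assoc, ihk, mul_assoc, pow_succ]
    have hbk : ∀ j k, f (.v (.inr (q, r))) * f (.z j) ^ k =
        f (.x j) ^ (M.a q r j * k) * f (.v (.inr (q, r))) := by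
      intro j k
      have h1 : f (.v (.inr (q, r))) * f (.z j) = f (.x j) ^ (M.a q r j) * f (.v (.inr (q, r))) := by
        have := hR _ _ (R.bk q r j)
        simpa [ev] using this
      induction k with
      | zero => simp
      | succ k ihk =>
        rw [pow_succ, ← mul_assoc, ihk, mul_assoc, h1, ← mul_assoc, ← pow_add, Nat.mul_succ]
    have ht1 : f .u * ev f (xw M (rv M r)) * f (.v (.inl (some q))) =
        f .u * ev f (xw M (M.b q r)) * f (.v (.inr (q, r))) := by
      have := hR _ _ (R.t1 q r)
      simpa [ev_cons, ev_append, ev_nil, mul_assoc] using this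
    have ht2 : f (.v (.inr (q, r))) * f .w = f (.v (.inl (M.nxt q r))) * f .w := by
      have := hR _ _ (R.t2 q r)
      simpa [ev] using this
    have key1 : ev f (xw M (fun j => M.B * m j)) * f (.v (.inl (some q))) =
        f (.v (.inl (some q))) * (f (.z true) ^ m true * f (.z false) ^ m false) := by
      rw [ev_xw, mul_assoc, hmv, ← mul_assoc, hmv, mul_assoc]
    have key2 : f (.v (.inr (q, r))) * (f (.z true) ^ m true * f (.z false) ^ m false) =
        ev f (xw M (fun j => M.a q r j * m j)) * f (.v (.inr (q, r))) := by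
      rw [ev_xw, ← mul_assoc, hbk, mul_assoc, hbk, mul_assoc]
    have e1 : ev f (conf (some q) n) = f .u * ev f (xw M n) * f (.v (.inl (some q))) * f .w := by
      simp [conf, ev_cons, ev_append, ev_nil, mul_assoc]
    have e2 : ev f (conf (M.nxt q r) (M.nn q n)) =
        f .u * ev f (xw M (M.nn q n)) * f (.v (.inl (M.nxt q r))) * f .w := by
      simp [conf, ev_cons, ev_append, ev_nil, mul_assoc]
    have hnn : M.nn q n = M.b q r + (fun j => M.a q r j * m j) := by
      funext j
      change M.a q (M.res n) j * (n j / M.B) + M.b q (M.res n) j = M.b q r j + M.a q r j * m j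
      rw [add_comm]
    rw [e2] at ih
    rw [e1]
    calc f .u * ev f (xw M n) * f (.v (.inl (some q))) * f .w
        = f .u * ev f (xw M (rv M r)) * (ev f (xw M (fun j => M.B * m j)) *
            f (.v (.inl (some q)))) * f .w := by
          conv_lhs => rw [hn, hadd]
          simp only [mul_assoc]
      _ = (f .u * ev f (xw M (rv M r)) * f (.v (.inl (some q)))) *
            (f (.z true) ^ m true * f (.z false) ^ m false) * f .w := by
          rw [key1]; simp only [mul_assoc]
      _ = (f .u * ev f (xw M (M.b q r))) * (f (.v (.inr (q, r))) *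
            (f (.z true) ^ m true * f (.z false) ^ m false)) * f .w := by
          rw [ht1]; simp only [mul_assoc]
      _ = f .u * ev f (xw M (M.nn q n)) * (f (.v (.inr (q, r))) * f .w) := by
          rw [key2, hnn, hadd]; simp only [mul_assoc]
      _ = f .u * ev f (xw M (M.nn q n)) * f (.v (.inl (M.nxt q r))) * f .w := by
          rw [ht2]; simp only [mul_assoc]
      _ = 0 := ih

end Sound

section Ops

variable (F : Type u) [Field F]

theorem hv_step (q : Q) (n : Bool → ℕ) :
    M.Halts (some q) n ↔ M.Halts (M.nxt q (M.res n)) (M.nn q n) := by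
  constructor
  · intro h
    cases h with
    | step _ _ h => exact h
  · intro h
    exact .step q n h

theorem res_add (r : Bool → Fin M.B) (m : Bool → ℕ) :
    M.res (fun j => (r j : ℕ) + M.B * m j) = r := by
  funext j
  apply Fin.ext
  change ((r j : ℕ) + M.B * m j) % M.B = r j
  rw [Nat.add_mul_mod_self_left, Nat.mod_eq_of_lt (r j).2]

theorem nn_add (q : Q) (r : Bool → Fin M.B) (m : Bool → ℕ) :
    M.nn q (fun j => (r j : ℕ) + M.B * m j) = fun j => M.b q r j + M.a q r j * m j := by
  funext j
  change M.a q (M.res _) j * (((r j : ℕ) + M.B * m j) / M.B) + M.b q (M.res _) j = _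
  rw [res_add, Nat.add_mul_div_left _ _ M.hB, Nat.div_eq_of_lt (r j).2, zero_add, add_comm]

theorem run_rep_v (σ : State M) (hσ : ∀ b, σ ≠ .s1 b) (n : ℕ) (j : Bool) (s : St M) :
    run M σ (List.replicate n (.x j) ++ [.v s]) = .dead := by
  cases n with
  | zero =>
    cases σ with
    | s1 b => exact absurd rfl (hσ b)
    | _ => rfl
  | succ n =>
    have : step M σ (.x j) = .dead := by
      cases σ with
      | s1 b => exact absurd rfl (hσ b)
      | _ => rfl
    rw [List.replicate_succ, List.cons_append, run_cons, this, run_dead]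

theorem opW_R {a b : List (Lt M)} (h : R M a b) : opW M F a = opW M F b := by
  apply opW_eq
  rintro ⟨φ, h0, h1, h2, h3, h4⟩ σ
  change φ _ = φ _
  cases h with
  | xx =>
    cases σ with
    | s1 b =>
      change φ (.s1 (b + e1 true + e1 false)) = φ (.s1 (b + e1 false + e1 true))
      rw [add_right_comm]
    | _ => rfl
  | zz =>
    cases σ with
    | s2 s b c =>
      change φ (.s2 s b (c + e1 true + e1 false)) = φ (.s2 s b (c + e1 false + e1 true))
      rw [add_right_comm]
    | _ => rfl
  | mv q j =>
    cases σ with
    | s1 b =>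
      rw [run_append, run_rep_x]
      change φ (.s2 (.inl (some q)) (b + M.B • e1 j) 0) = φ (.s2 (.inl (some q)) b (0 + e1 j))
      apply h1
      intro d
      change M.Halts (some q) _ ↔ M.Halts (some q) _
      have : (fun i => (b + M.B • e1 j) i + M.B * ((0 : Bool → ℕ) + d) i) =
          fun i => b i + M.B * (0 + e1 j + d) i := by
        funext i
        simp only [Pi.add_apply, Pi.smul_apply, Pi.zero_apply, smul_eq_mul]
        ring
      rw [this]
    | s0 => rw [run_rep_v M _ (by simp)]; rfl
    | s2 s b c => rw [run_rep_v M _ (by simp)]; rfl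
    | s3 s b c => rw [run_rep_v M _ (by simp)]; rfl
    | dead => rw [run_dead, run_dead]
  | t1 q r =>
    cases σ with
    | s0 =>
      change φ (run M (.s1 0) (xw M (rv M r) ++ [.v (.inl (some q))])) =
        φ (run M (.s1 0) (xw M (M.b q r) ++ [.v (.inr (q, r))]))
      rw [run_append, run_append, run_xw, run_xw]
      change φ (.s2 (.inl (some q)) (0 + rv M r) 0) = φ (.s2 (.inr (q, r)) (0 + M.b q r) 0)
      apply h1
      intro d
      rw [zero_add, zero_add, zero_add]
      change M.Halts (some q) (fun j => (r j : ℕ) + M.B * d j) ↔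
        M.Halts (M.nxt q r) (fun j => M.b q r j + M.a q r j * d j)
      rw [hv_step, res_add, nn_add]
    | _ => 
      change φ (run M .dead _) = φ (run M .dead _)
      rw [run_dead, run_dead]
  | bk q r j =>
    cases σ with
    | s1 b =>
      rw [run_append, run_rep_x]
      change φ (.s2 (.inr (q, r)) b (0 + e1 j)) = φ (.s2 (.inr (q, r)) (b + M.a q r j • e1 j) 0)
      apply h1
      intro d
      change M.Halts (M.nxt q r) _ ↔ M.Halts (M.nxt q r) _
      have : (fun i => b i + M.a q r i * (0 + e1 j + d) i) =
          fun i => (b + M.a q r j • e1 j) i + M.a q r i * ((0 : Bool → ℕ) + d) i := by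
        funext i
        simp only [Pi.add_apply, Pi.smul_apply, Pi.zero_apply, smul_eq_mul]
        by_cases hij : i = j
        · subst hij; ring
        · simp [e1, hij]
      rw [this]
    | s0 => rw [run_rep_v M _ (by simp)]; rfl
    | s2 s b c => rw [run_rep_v M _ (by simp)]; rfl
    | s3 s b c => rw [run_rep_v M _ (by simp)]; rfl
    | dead => rw [run_dead, run_dead]
  | t2 q r =>
    cases σ with
    | s1 b =>
      change φ (.s3 (.inr (q, r)) b 0) = φ (.s3 (.inl (M.nxt q r)) b 0)
      apply h2
      change M.Halts (M.nxt q r) _ ↔ M.Halts (M.nxt q r) _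
      simp
    | _ => rfl

theorem op_zero : op M F (.v (.inl none)) = 0 := by
  refine LinearMap.ext fun φ => Subtype.ext (funext fun σ => ?_)
  obtain ⟨φ, h0, h1, h2, h3, h4⟩ := φ
  change φ (step M σ (.v (.inl none))) = 0
  cases σ with
  | s1 b =>
    change φ (.s2 (.inl none) b 0) = 0
    apply h3
    intro d
    exact .stop _
  | _ => exact h0

theorem opW_conf {o : Option Q} {n : Bool → ℕ} (h : ¬ M.Halts o n) :
    opW M F (conf o n) ≠ 0 := by
  classical
  intro h0
  have h1 := opW_apply M F (conf o n) (fin M F) .s0
  rw [h0] at h1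
  have h2 : run M .s0 (conf o n) = .s3 (.inl o) n 0 := by
    change run M (.s1 0) (xw M n ++ [.v (.inl o), .w]) = _
    rw [run_append, run_xw, zero_add]
    rfl
  rw [h2] at h1
  have h3 : hv M (.inl o) n 0 ↔ M.Halts o n := by
    change M.Halts o (fun j => n j + M.B * 0) ↔ _
    simp
  have h4 : (fin M F).1 (.s3 (.inl o) n 0) = 1 := by
    exact if_neg (fun hh => h (h3.1 hh))
  rw [h4] at h1
  exact zero_ne_one h1

end Ops

end Pool.Agent.H861R2.EqP
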