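import Mathlib
import Pool.Agent.H861R2.EqP.Rel
import Pool.Agent.H861R2.EqP.Defs

set_option autoImplicit false

/-!
The action of the letters factors through matrices over polynomial rings.
-/

namespace Pool.Agent.H861R2.EqP

open Pool.Agent.Helper599.Core

universe u

section Span

variable (F : Type u) [Field F] (X : Type)

theorem mem_span_words (g : FreeAlgebra F X) :
    g ∈ Submodule.span F (Set.range fun W : List X => (W.map (FreeAlgebra.ι F)).prod) := by
  refine FreeAlgebra.induction F X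
    (motive := fun g => g ∈ Submodule.span F
      (Set.range fun W : List X => (W.map (FreeAlgebra.ι F)).prod)) ?_ ?_ ?_ ?_ g
  · intro r
    rw [Algebra.algebraMap_eq_smul_one]
    exact Submodule.smul_mem _ _ (Submodule.subset_span ⟨[], rfl⟩)
  · intro x
    exact Submodule.subset_span ⟨[x], by simp⟩
  · intro a b ha hb
    have h := Submodule.mul_mem_mul ha hb
    rw [Submodule.span_mul_span] at h
    refine Submodule.span_mono ?_ h
    rintro _ ⟨_, ⟨W, rfl⟩, _, ⟨W', rfl⟩, rfl⟩
    exact ⟨W ++ W', by simp⟩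
  · intro a b ha hb
    exact Submodule.add_mem _ ha hb

end Span

variable {Q : Type} (M : Sys Q Bool) (F : Type u) [Field F]

/-- the free algebra acts -/
noncomputable def rho : FreeAlgebra F (Lt M) →ₐ[F] Module.End F (Vm M F) :=
  FreeAlgebra.lift F (op M F)

theorem rho_word (W : List (Lt M)) : rho M F (W.map (FreeAlgebra.ι F)).prod = opW M F W := by
  rw [map_list_prod, List.map_map, opW]
  congr 1
  apply List.map_congr_left
  intro l _
  exact FreeAlgebra.lift_ι_apply _ _

/-- a graded monomial matrix representation which is compatible with the automaton -/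
structure Fac (k : ℕ) (Vr : Type) where
  a : Lt M → Fin k
  b : Lt M → Fin k
  d : Lt M → (Vr →₀ ℕ)
  dec : Fin k → (Vr →₀ ℕ) → State M
  Reach : Fin k → (Vr →₀ ℕ) → Prop
  h1 : ∀ l m, Reach (a l) m → Reach (b l) (m + d l) ∧ dec (b l) (m + d l) = step M (dec (a l) m) l
  h2 : ∀ l i m, i ≠ a l → Reach i m → step M (dec i m) l = .dead
  h3 : ∀ σ : State M, σ ≠ .dead → ∃ i m, Reach i m ∧ dec i m = σ

variable {M} {k : ℕ} {Vr : Type} (T : Fac M k Vr)

/-- matrix of a letter -/
noncomputable def Fac.mat (l : Lt M) : Matrix (Fin k) (Fin k) (MvPolynomial Vr F) :=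
  Matrix.single (T.a l) (T.b l) (MvPolynomial.monomial (T.d l) 1)

/-- the representation -/
noncomputable def Fac.pi :
    FreeAlgebra F (Lt M) →ₐ[F] Matrix (Fin k) (Fin k) (MvPolynomial Vr F) :=
  FreeAlgebra.lift F (T.mat F)

/-- row of a monomial -/
noncomputable def row (i : Fin k) (m : Vr →₀ ℕ) : Fin k → MvPolynomial Vr F :=
  Pi.single i (MvPolynomial.monomial m 1)

theorem row_mat_eq (l : Lt M) (m : Vr →₀ ℕ) :
    Matrix.vecMul (row F (T.a l) m) (T.mat F l) = row F (T.b l) (m + T.d l) := by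
  funext j
  rw [row, Fac.mat, Matrix.single_vecMul, row]
  by_cases h : j = T.b l
  · subst h
    simp [Matrix.single, MvPolynomial.monomial_mul]
  · rw [Pi.single_eq_of_ne h]
    simp [Matrix.single, Ne.symm h]

theorem row_mat_ne (l : Lt M) (i : Fin k) (h : i ≠ T.a l) (m : Vr →₀ ℕ) :
    Matrix.vecMul (row F i m) (T.mat F l) = 0 := by
  funext j
  rw [row, Fac.mat, Matrix.single_vecMul]
  simp [Matrix.single, Ne.symm h]

/-- the functional on rows -/
noncomputable def Fac.L (φ : State M → F) : (Fin k → MvPolynomial Vr F) →ₗ[F] F :=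
  ∑ i, ((MvPolynomial.basisMonomials Vr F).constr F (fun m => φ (T.dec i m))) ∘ₗ
    LinearMap.proj i

theorem L_row (φ : State M → F) (i : Fin k) (m : Vr →₀ ℕ) :
    T.L F φ (row F i m) = φ (T.dec i m) := by
  unfold Fac.L
  rw [LinearMap.sum_apply, Finset.sum_eq_single i]
  · rw [LinearMap.comp_apply, LinearMap.proj_apply, row, Pi.single_eq_same]
    have h := (MvPolynomial.basisMonomials Vr F).constr_basis F (fun m => φ (T.dec i m)) m
    rwa [MvPolynomial.coe_basisMonomials] at h
  · intro j _ hj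
    rw [LinearMap.comp_apply, LinearMap.proj_apply, row, Pi.single_eq_of_ne hj, map_zero]
  · intro h
    exact absurd (Finset.mem_univ i) h

theorem pi_word (W : List (Lt M)) :
    T.pi F (W.map (FreeAlgebra.ι F)).prod = (W.map (T.mat F)).prod := by
  rw [map_list_prod, List.map_map]
  congr 1
  apply List.map_congr_left
  intro l _
  exact FreeAlgebra.lift_ι_apply _ _

theorem run_eq (φ : State M → F) (hφ : φ .dead = 0) (W : List (Lt M)) :
    ∀ i m, T.Reach i m →
      φ (run M (T.dec i m) W) = T.L F φ (Matrix.vecMul (row F i m) (W.map (T.mat F)).prod) := by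
  induction W with
  | nil =>
    intro i m _
    rw [List.map_nil, List.prod_nil, Matrix.vecMul_one, L_row, run_nil]
  | cons l W ih =>
    intro i m hr
    rw [List.map_cons, List.prod_cons, ← Matrix.vecMul_vecMul, run_cons]
    by_cases h : i = T.a l
    · subst h
      obtain ⟨h1, h2⟩ := T.h1 l m hr
      rw [row_mat_eq, ← ih _ _ h1, h2]
    · rw [row_mat_ne F T l i h, T.h2 l i m h hr, run_dead, Matrix.zero_vecMul, map_zero, hφ]

theorem rho_eq (g : FreeAlgebra F (Lt M)) (φ : Vm M F) (i : Fin k) (m : Vr →₀ ℕ)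
    (hr : T.Reach i m) :
    (rho M F g φ).1 (T.dec i m) = T.L F φ.1 (Matrix.vecMul (row F i m) (T.pi F g)) := by
  refine Submodule.span_induction
    (p := fun g _ => (rho M F g φ).1 (T.dec i m) =
      T.L F φ.1 (Matrix.vecMul (row F i m) (T.pi F g))) ?_ ?_ ?_ ?_ (mem_span_words F _ g)
  · rintro _ ⟨W, rfl⟩
    change (rho M F (W.map (FreeAlgebra.ι F)).prod φ).1 _ =
      T.L F φ.1 (Matrix.vecMul _ (T.pi F (W.map (FreeAlgebra.ι F)).prod))
    rw [rho_word, opW_apply, pi_word, run_eq F T φ.1 φ.2.1 W i m hr]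
  · rw [map_zero, map_zero, Matrix.vecMul_zero, map_zero]
    rfl
  · intro a b _ _ ha hb
    rw [map_add, map_add, Matrix.vecMul_add, map_add, ← ha, ← hb]
    rfl
  · intro r a _ ha
    rw [map_smul, map_smul, Matrix.vecMul_smul, map_smul, ← ha]
    rfl

theorem rho_zero (g : FreeAlgebra F (Lt M)) (hg : T.pi F g = 0) : rho M F g = 0 := by
  refine LinearMap.ext fun φ => Subtype.ext (funext fun σ => ?_)
  by_cases hσ : σ = .dead
  · rw [hσ]
    exact (rho M F g φ).2.1
  · obtain ⟨i, m, hr, rfl⟩ := T.h3 σ hσ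
    rw [rho_eq F T g φ i m hr, hg, Matrix.vecMul_zero, map_zero]
    rfl

end Pool.Agent.H861R2.EqP
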