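import Mathlib
import Pool.Agent.H861R2.EqP.Fact

set_option autoImplicit false

/-!
The two representations: cyclic `3 × 3` matrices and triangular `4 × 4` matrices.
-/

namespace Pool.Agent.H861R2.EqP

open Pool.Agent.Helper599.Core

universe u

/-- variables -/
inductive Vr : Type
  | X (j : Bool)
  | Z (j : Bool)
  | Y
  | S
  deriving DecidableEq

variable {Q : Type} (M : Sys Q Bool)

theorem exists_code [Finite Q] : ∃ f : St M → ℕ, Function.Injective f :=
  exists_injective_nat (St M)

/-- code of a middle letter -/
noncomputable def code [Finite Q] : St M → ℕ := (exists_code M).choose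

instance : Nonempty (St M) := ⟨.inl none⟩

/-- decoding -/
noncomputable def dcd [Finite Q] : ℕ → St M := Function.invFun (code M)

theorem dcd_code [Finite Q] (s : St M) : dcd M (code M s) = s :=
  Function.leftInverse_invFun (exists_code M).choose_spec s

/-- degree vector of a letter -/
noncomputable def dg [Finite Q] : Lt M → (Vr →₀ ℕ)
  | .u => 0
  | .w => 0
  | .x j => Finsupp.single (.X j) 1
  | .z j => Finsupp.single (.Z j) 1
  | .v s => Finsupp.single .Y 1 + Finsupp.single .S (code M s)

/-- the state read off a full monomial -/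
noncomputable def d2 [Finite Q] (m : Vr →₀ ℕ) : State M :=
  .s2 (dcd M (m .S)) (fun j => m (.X j)) (fun j => m (.Z j))

/-- the state read off a full monomial -/
noncomputable def d3 [Finite Q] (m : Vr →₀ ℕ) : State M :=
  .s3 (dcd M (m .S)) (fun j => m (.X j)) (fun j => m (.Z j))

/-- the full monomial of a triple -/
noncomputable def full [Finite Q] (s : St M) (b c : Bool → ℕ) : Vr →₀ ℕ :=
  Finsupp.single .Y 1 + Finsupp.single .S (code M s) + Finsupp.single (.X true) (b true) +
    Finsupp.single (.X false) (b false) + Finsupp.single (.Z true) (c true) +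
    Finsupp.single (.Z false) (c false)

theorem full_Y [Finite Q] (s : St M) (b c : Bool → ℕ) : full M s b c .Y = 1 := by
  simp [full]

theorem full_S [Finite Q] (s : St M) (b c : Bool → ℕ) : full M s b c .S = code M s := by
  simp [full]

theorem full_X [Finite Q] (s : St M) (b c : Bool → ℕ) (j : Bool) :
    full M s b c (.X j) = b j := by
  cases j <;> simp [full]

theorem full_Z [Finite Q] (s : St M) (b c : Bool → ℕ) (j : Bool) :
    full M s b c (.Z j) = c j := by
  cases j <;> simp [full]

theorem d2_full [Finite Q] (s : St M) (b c : Bool → ℕ) : d2 M (full M s b c) = .s2 s b c := by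
  simp only [d2, full_S, dcd_code, full_X, full_Z]

theorem d3_full [Finite Q] (s : St M) (b c : Bool → ℕ) : d3 M (full M s b c) = .s3 s b c := by
  simp only [d3, full_S, dcd_code, full_X, full_Z]

/-- the monomial of a vector -/
noncomputable def vx (b : Bool → ℕ) : Vr →₀ ℕ :=
  Finsupp.single (.X true) (b true) + Finsupp.single (.X false) (b false)

theorem vx_X (b : Bool → ℕ) (j : Bool) : vx b (.X j) = b j := by
  cases j <;> simp [vx]

theorem vx_Z (b : Bool → ℕ) (j : Bool) : vx b (.Z j) = 0 := by simp [vx]
theorem vx_Y (b : Bool → ℕ) : vx b .Y = 0 := by simp [vx]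
theorem vx_S (b : Bool → ℕ) : vx b .S = 0 := by simp [vx]

theorem d1_x [Finite Q] (m : Vr →₀ ℕ) (j : Bool) :
    (fun i => (m + dg M (.x j)) (.X i)) = (fun i => m (.X i)) + e1 j := by
  funext i
  cases i <;> cases j <;> simp [dg, e1]

theorem d2_z [Finite Q] (m : Vr →₀ ℕ) (j : Bool) :
    d2 M (m + dg M (.z j)) = step M (d2 M m) (.z j) := by
  change State.s2 _ _ _ = State.s2 _ _ _
  have h1 : (m + dg M (.z j)) .S = m .S := by simp [dg]
  have h2 : (fun i => (m + dg M (.z j)) (.X i)) = fun i => m (.X i) := by
    funext i; simp [dg]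
  have h3 : (fun i => (m + dg M (.z j)) (.Z i)) = (fun i => m (.Z i)) + e1 j := by
    funext i
    cases i <;> cases j <;> simp [dg, e1]
  rw [h1, h2, h3]

theorem d2_v [Finite Q] (m : Vr →₀ ℕ) (s : St M) (hS : m .S = 0) (hZ : ∀ j, m (.Z j) = 0) :
    d2 M (m + dg M (.v s)) = .s2 s (fun i => m (.X i)) 0 := by
  have h1 : (m + dg M (.v s)) .S = code M s := by simp [dg, hS]
  have h2 : (fun i => (m + dg M (.v s)) (.X i)) = fun i => m (.X i) := by
    funext i; simp [dg]
  have h3 : (fun i => (m + dg M (.v s)) (.Z i)) = 0 := by
    funext i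
    simp [dg, hZ]
  unfold d2
  rw [h1, h2, h3, dcd_code]

/-- source of a letter, triangular case -/
def a4 : Lt M → Fin 4
  | .u => 0
  | .x _ => 1
  | .v _ => 1
  | .z _ => 2
  | .w => 2

/-- target of a letter, triangular case -/
def b4 : Lt M → Fin 4
  | .u => 1
  | .x _ => 1
  | .v _ => 2
  | .z _ => 2
  | .w => 3

/-- decoding, triangular case -/
noncomputable def dec4 [Finite Q] : Fin 4 → (Vr →₀ ℕ) → State M
  | 0, _ => .s0
  | 1, m => .s1 (fun j => m (.X j))
  | 2, m => d2 M m
  | 3, m => d3 M m

/-- reachable pairs, triangular case -/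
def Reach4 : Fin 4 → (Vr →₀ ℕ) → Prop
  | 0, m => m = 0
  | 1, m => m .S = 0 ∧ ∀ j, m (.Z j) = 0
  | 2, _ => True
  | 3, _ => True

/-- the triangular representation -/
noncomputable def T4 [Finite Q] : Fac M 4 Vr where
  a := a4 M
  b := b4 M
  d := dg M
  dec := dec4 M
  Reach := Reach4
  h1 := by
    intro l m hr
    cases l with
    | u =>
      change m = 0 at hr
      subst hr
      refine ⟨⟨by simp [dg], by simp [dg]⟩, ?_⟩
      rfl
    | w =>
      refine ⟨trivial, ?_⟩
      change d3 M (m + 0) = step M (d2 M m) .w
      rw [add_zero]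
      rfl
    | x j =>
      refine ⟨⟨?_, ?_⟩, ?_⟩
      · have := hr.1
        simp [dg, this]
      · intro i
        have := hr.2 i
        simp [dg, this]
      · change State.s1 _ = State.s1 _
        rw [d1_x]
    | z j => exact ⟨trivial, d2_z M m j⟩
    | v s =>
      refine ⟨trivial, ?_⟩
      change d2 M (m + dg M (.v s)) = _
      exact d2_v M m s hr.1 hr.2
  h2 := by
    intro l i m hi hr
    cases l with
    | u => fin_cases i <;> first | exact absurd rfl hi | rfl
    | w => fin_cases i <;> first | exact absurd rfl hi | rfl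
    | x j => fin_cases i <;> first | exact absurd rfl hi | rfl
    | z j => fin_cases i <;> first | exact absurd rfl hi | rfl
    | v s => fin_cases i <;> first | exact absurd rfl hi | rfl
  h3 := by
    intro σ hσ
    cases σ with
    | dead => exact absurd rfl hσ
    | s0 => exact ⟨0, 0, rfl, rfl⟩
    | s1 b =>
      refine ⟨1, vx b, ⟨vx_S b, vx_Z b⟩, ?_⟩
      change State.s1 _ = State.s1 _
      congr 1
      funext j
      exact vx_X b j
    | s2 s b c => exact ⟨2, full M s b c, trivial, d2_full M s b c⟩
    | s3 s b c => exact ⟨3, full M s b c, trivial, d3_full M s b c⟩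

/-- source of a letter, cyclic case -/
def a3 : Lt M → Fin 3
  | .u => 0
  | .x _ => 1
  | .v _ => 1
  | .z _ => 2
  | .w => 2

/-- target of a letter, cyclic case -/
def b3 : Lt M → Fin 3
  | .u => 1
  | .x _ => 1
  | .v _ => 2
  | .z _ => 2
  | .w => 0

/-- decoding, cyclic case -/
noncomputable def dec3 [Finite Q] : Fin 3 → (Vr →₀ ℕ) → State M
  | 0, m => if m .Y = 0 then .s0 else if m .Y = 1 then d3 M m else .dead
  | 1, m => if m .Y = 0 then .s1 (fun j => m (.X j)) else .dead
  | 2, m => if m .Y = 1 then d2 M m else .dead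

/-- reachable pairs, cyclic case -/
def Reach3 : Fin 3 → (Vr →₀ ℕ) → Prop
  | 0, m => m .Y = 0 → m = 0
  | 1, m => m .Y = 0 → m .S = 0 ∧ ∀ j, m (.Z j) = 0
  | 2, m => m .Y ≠ 0

/-- the cyclic representation -/
noncomputable def T3 [Finite Q] : Fac M 3 Vr where
  a := a3 M
  b := b3 M
  d := dg M
  dec := dec3 M
  Reach := Reach3
  h1 := by
    intro l m hr
    cases l with
    | u =>
      change m .Y = 0 → m = 0 at hr
      change (((m + 0) .Y = 0 → (m + 0) .S = 0 ∧ ∀ j, (m + 0) (.Z j) = 0)) ∧
        (if (m + 0) .Y = 0 then State.s1 (fun j => (m + 0) (.X j)) else .dead) =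
          step M (if m .Y = 0 then .s0 else if m .Y = 1 then d3 M m else .dead) .u
      rw [add_zero]
      constructor
      · intro h
        rw [hr h]
        simp
      · by_cases h : m .Y = 0
        · rw [if_pos h, if_pos h, hr h]
          rfl
        · rw [if_neg h, if_neg h]
          by_cases h' : m .Y = 1
          · rw [if_pos h']; rfl
          · rw [if_neg h']; rfl
    | w =>
      change m .Y ≠ 0 at hr
      change ((m + 0) .Y = 0 → m + 0 = 0) ∧
        (if (m + 0) .Y = 0 then .s0 else if (m + 0) .Y = 1 then d3 M (m + 0) else .dead) =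
          step M (if m .Y = 1 then d2 M m else .dead) .w
      rw [add_zero]
      refine ⟨fun h => absurd h hr, ?_⟩
      rw [if_neg hr]
      by_cases h' : m .Y = 1
      · rw [if_pos h', if_pos h']; rfl
      · rw [if_neg h', if_neg h']; rfl
    | x j =>
      change m .Y = 0 → m .S = 0 ∧ ∀ j, m (.Z j) = 0 at hr
      have hY : (m + dg M (.x j)) .Y = m .Y := by simp [dg]
      have hS : (m + dg M (.x j)) .S = m .S := by simp [dg]
      have hZ : ∀ i, (m + dg M (.x j)) (.Z i) = m (.Z i) := by intro i; simp [dg]
      change (((m + dg M (.x j)) .Y = 0 → (m + dg M (.x j)) .S = 0 ∧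
          ∀ i, (m + dg M (.x j)) (.Z i) = 0)) ∧
        (if (m + dg M (.x j)) .Y = 0 then State.s1 (fun i => (m + dg M (.x j)) (.X i)) else
          .dead) =
          step M (if m .Y = 0 then .s1 (fun i => m (.X i)) else .dead) (.x j)
      rw [hY, hS, d1_x]
      constructor
      · intro h
        refine ⟨(hr h).1, fun i => ?_⟩
        rw [hZ]
        exact (hr h).2 i
      · by_cases h : m .Y = 0
        · rw [if_pos h, if_pos h]; rfl
        · rw [if_neg h, if_neg h]; rfl
    | z j =>
      change m .Y ≠ 0 at hr
      have hY : (m + dg M (.z j)) .Y = m .Y := by simp [dg]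
      change (m + dg M (.z j)) .Y ≠ 0 ∧
        (if (m + dg M (.z j)) .Y = 1 then d2 M (m + dg M (.z j)) else .dead) =
          step M (if m .Y = 1 then d2 M m else .dead) (.z j)
      rw [hY]
      refine ⟨hr, ?_⟩
      by_cases h : m .Y = 1
      · rw [if_pos h, if_pos h, d2_z]
      · rw [if_neg h, if_neg h]; rfl
    | v s =>
      change m .Y = 0 → m .S = 0 ∧ ∀ j, m (.Z j) = 0 at hr
      have hY : (m + dg M (.v s)) .Y = m .Y + 1 := by simp [dg]
      change (m + dg M (.v s)) .Y ≠ 0 ∧
        (if (m + dg M (.v s)) .Y = 1 then d2 M (m + dg M (.v s)) else .dead) =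
          step M (if m .Y = 0 then .s1 (fun i => m (.X i)) else .dead) (.v s)
      rw [hY]
      refine ⟨by omega, ?_⟩
      by_cases h : m .Y = 0
      · rw [if_pos h, if_pos (by omega), d2_v M m s (hr h).1 (hr h).2]
        rfl
      · rw [if_neg h, if_neg (by omega)]; rfl
  h2 := by
    have k0 : ∀ m l, (∀ (_ : l = .u), False) → step M (dec3 M 0 m) l = .dead := by
      intro m l hl
      change step M (if m .Y = 0 then .s0 else if m .Y = 1 then d3 M m else .dead) l = .dead
      by_cases h : m .Y = 0
      · rw [if_pos h]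
        cases l with
        | u => exact (hl rfl).elim
        | _ => rfl
      · rw [if_neg h]
        by_cases h' : m .Y = 1
        · rw [if_pos h']
          exact step_s3 M _ _ _ _
        · rw [if_neg h']
          exact step_dead M _
    have k1 : ∀ m l, (∀ j, l ≠ .x j) → (∀ s, l ≠ .v s) → step M (dec3 M 1 m) l = .dead := by
      intro m l hl hl'
      change step M (if m .Y = 0 then .s1 (fun j => m (.X j)) else .dead) l = .dead
      by_cases h : m .Y = 0
      · rw [if_pos h]
        cases l with
        | x j => exact absurd rfl (hl j)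
        | v s => exact absurd rfl (hl' s)
        | _ => rfl
      · rw [if_neg h]
        exact step_dead M _
    have k2 : ∀ m l, (∀ j, l ≠ .z j) → (l ≠ .w) → step M (dec3 M 2 m) l = .dead := by
      intro m l hl hl'
      change step M (if m .Y = 1 then d2 M m else .dead) l = .dead
      by_cases h : m .Y = 1
      · rw [if_pos h]
        cases l with
        | z j => exact absurd rfl (hl j)
        | w => exact absurd rfl hl'
        | _ => rfl
      · rw [if_neg h]
        exact step_dead M _
    intro l i m hi _
    cases l with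
    | u =>
      fin_cases i
      · exact absurd rfl hi
      · exact k1 m _ (by simp) (by simp)
      · exact k2 m _ (by simp) (by simp)
    | w =>
      fin_cases i
      · exact k0 m _ (by simp)
      · exact k1 m _ (by simp) (by simp)
      · exact absurd rfl hi
    | x j =>
      fin_cases i
      · exact k0 m _ (by simp)
      · exact absurd rfl hi
      · exact k2 m _ (by simp) (by simp)
    | z j =>
      fin_cases i
      · exact k0 m _ (by simp)
      · exact k1 m _ (by simp) (by simp)
      · exact absurd rfl hi
    | v s =>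
      fin_cases i
      · exact k0 m _ (by simp)
      · exact absurd rfl hi
      · exact k2 m _ (by simp) (by simp)
  h3 := by
    intro σ hσ
    cases σ with
    | dead => exact absurd rfl hσ
    | s0 =>
      refine ⟨0, 0, fun _ => rfl, ?_⟩
      simp [dec3]
    | s1 b =>
      refine ⟨1, vx b, fun _ => ⟨vx_S b, vx_Z b⟩, ?_⟩
      change (if vx b .Y = 0 then State.s1 _ else _) = State.s1 _
      rw [if_pos (vx_Y b)]
      congr 1
      funext j
      exact vx_X b j
    | s2 s b c =>
      refine ⟨2, full M s b c, ?_, ?_⟩
      · change full M s b c .Y ≠ 0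
        rw [full_Y]; exact one_ne_zero
      · change (if full M s b c .Y = 1 then d2 M _ else _) = _
        rw [if_pos (full_Y M s b c), d2_full]
    | s3 s b c =>
      refine ⟨0, full M s b c, ?_, ?_⟩
      · intro h
        rw [full_Y] at h
        exact absurd h one_ne_zero
      · change (if full M s b c .Y = 0 then _ else if full M s b c .Y = 1 then d3 M _ else _) = _
        rw [full_Y, if_neg one_ne_zero, if_pos rfl, d3_full]

end Pool.Agent.H861R2.EqP
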