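import Mathlib
import Pool.Agent.H861R2.EqP.Defs

set_option autoImplicit false

/-!
The standard identity of degree at least `6` holds for upper triangular `4 × 4` matrices whose
first and last diagonal entries vanish. The varieties `M(n)`: corners and polynomial rings.
-/

namespace Pool.Agent.H861R2.EqP

universe u

section Path

variable {P : Type u} [CommRing P] {k : ℕ}

/-- entries of a product of matrices as a sum over paths -/
theorem prod_entry (n : ℕ) : ∀ (Y : Fin n → Matrix (Fin k) (Fin k) P) (i j : Fin k),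
    (List.ofFn Y).prod i j = ∑ p : Fin n → Fin k,
      if (Fin.cons i p : Fin (n + 1) → Fin k) (Fin.last n) = j then
        ∏ t : Fin n, Y t ((Fin.cons i p : Fin (n + 1) → Fin k) t.castSucc)
          ((Fin.cons i p : Fin (n + 1) → Fin k) t.succ) else 0 := by
  induction n with
  | zero =>
    intro Y i j
    rw [List.ofFn_zero, List.prod_nil, Finset.univ_unique, Finset.sum_singleton]
    simp only [Finset.univ_eq_empty, Finset.prod_empty]
    rw [Matrix.one_apply]
    rfl
  | succ n ih =>
    intro Y i j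
    rw [List.ofFn_succ, List.prod_cons, Matrix.mul_apply]
    rw [← (Fin.consEquiv (fun _ : Fin (n + 1) => Fin k)).sum_comp, Fintype.sum_prod_type]
    apply Finset.sum_congr rfl
    intro l _
    rw [ih, Finset.mul_sum]
    apply Finset.sum_congr rfl
    intro p _
    have e1 : (Fin.cons i ((Fin.consEquiv (fun _ : Fin (n + 1) => Fin k)) (l, p)) :
        Fin (n + 2) → Fin k) (Fin.last (n + 1)) =
        (Fin.cons l p : Fin (n + 1) → Fin k) (Fin.last n) := by
      rw [← Fin.succ_last]
      rfl
    rw [e1, mul_ite, mul_zero]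
    congr 1
    rw [Fin.prod_univ_succ]
    rfl

theorem det_path {n : ℕ} (Y : Fin n → Matrix (Fin k) (Fin k) P) (i j : Fin k) :
    (∑ σ : Equiv.Perm (Fin n), (Equiv.Perm.sign σ : ℤ) • (List.ofFn fun t => Y (σ t)).prod) i j =
      ∑ p : Fin n → Fin k,
        if (Fin.cons i p : Fin (n + 1) → Fin k) (Fin.last n) = j then
          (Matrix.of fun (m t : Fin n) => Y m ((Fin.cons i p : Fin (n + 1) → Fin k) t.castSucc)
            ((Fin.cons i p : Fin (n + 1) → Fin k) t.succ)).det else 0 := by
  rw [Matrix.sum_apply]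
  simp only [Matrix.smul_apply, prod_entry, Finset.smul_sum]
  rw [Finset.sum_comm]
  apply Finset.sum_congr rfl
  intro p _
  by_cases h : (Fin.cons i p : Fin (n + 1) → Fin k) (Fin.last n) = j
  · simp only [if_pos h, Matrix.det_apply, Matrix.of_apply]
    rfl
  · simp only [if_neg h, smul_zero, Finset.sum_const_zero]

/-- upper triangular with vanishing first and last diagonal entry -/
def UT (A : Matrix (Fin 4) (Fin 4) P) : Prop :=
  (∀ i j, j < i → A i j = 0) ∧ A 0 0 = 0 ∧ A 3 3 = 0

theorem standard_UT {n : ℕ} (hn : 6 ≤ n) (Y : Fin n → Matrix (Fin 4) (Fin 4) P)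
    (hY : ∀ t, UT (Y t)) : standard Y = 0 := by
  have e : standard Y = ∑ σ : Equiv.Perm (Fin n),
      (Equiv.Perm.sign σ : ℤ) • (List.ofFn fun t => Y (σ t)).prod := by
    unfold standard
    apply Finset.sum_congr rfl
    intro σ _
    rw [mulList_eq_prod]
    intro h
    have := congrArg List.length h
    rw [List.length_ofFn] at this
    simp at this
    omega
  rw [e]
  ext i j
  rw [det_path, Matrix.zero_apply]
  apply Finset.sum_eq_zero
  intro p _
  split_ifs with h
  swap
  · rfl
  set c : Fin (n + 1) → Fin 4 := Fin.cons i p with hc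
  -- a column vanishes or two columns agree
  by_cases hz : ∃ t : Fin n, ∀ m, Y m (c t.castSucc) (c t.succ) = 0
  · obtain ⟨t, ht⟩ := hz
    exact Matrix.det_eq_zero_of_column_eq_zero t (fun m => ht m)
  · push Not at hz
    have h1 : ∀ t : Fin n, c t.castSucc ≤ c t.succ := by
      intro t
      obtain ⟨m, hm⟩ := hz t
      by_contra hlt
      exact hm ((hY m).1 _ _ (not_le.1 hlt))
    have h2 : ∀ t : Fin n, ¬ (c t.castSucc = 0 ∧ c t.succ = 0) := by
      rintro t ⟨h3, h4⟩
      obtain ⟨m, hm⟩ := hz t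
      rw [h3, h4] at hm
      exact hm (hY m).2.1
    have h3 : ∀ t : Fin n, ¬ (c t.castSucc = 3 ∧ c t.succ = 3) := by
      rintro t ⟨h3, h4⟩
      obtain ⟨m, hm⟩ := hz t
      rw [h3, h4] at hm
      exact hm (hY m).2.2
    -- natural number version
    have g : ∀ a : ℕ, (ha : a + 1 ≤ n) →
        (c ⟨a, by omega⟩ : ℕ) ≤ c ⟨a + 1, by omega⟩ ∧
        ((c ⟨a, by omega⟩ : ℕ) = 0 → (c ⟨a + 1, by omega⟩ : ℕ) ≠ 0) ∧
        ((c ⟨a, by omega⟩ : ℕ) = 3 → (c ⟨a + 1, by omega⟩ : ℕ) ≠ 3) := by
      intro a ha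
      refine ⟨h1 ⟨a, by omega⟩, ?_, ?_⟩
      · intro h4 h5
        exact h2 ⟨a, by omega⟩ ⟨Fin.ext h4, Fin.ext h5⟩
      · intro h4 h5
        exact h3 ⟨a, by omega⟩ ⟨Fin.ext h4, Fin.ext h5⟩
    have key : ∃ a : ℕ, ∃ ha : a + 2 ≤ n, (c ⟨a, by omega⟩ : ℕ) = c ⟨a + 1, by omega⟩ ∧
        (c ⟨a + 1, by omega⟩ : ℕ) = c ⟨a + 2, by omega⟩ := by
      by_contra hk
      push Not at hk
      have b0 := (c ⟨0, by omega⟩).2
      have b1 := (c ⟨1, by omega⟩).2
      have b2 := (c ⟨2, by omega⟩).2
      have b3 := (c ⟨3, by omega⟩).2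
      have b4 := (c ⟨4, by omega⟩).2
      have b5 := (c ⟨5, by omega⟩).2
      have b6 := (c ⟨6, by omega⟩).2
      have g0 := g 0 (by omega)
      have g1 := g 1 (by omega)
      have g2 := g 2 (by omega)
      have g3 := g 3 (by omega)
      have g4 := g 4 (by omega)
      have g5 := g 5 (by omega)
      have k0 := hk 0 (by omega)
      have k1 := hk 1 (by omega)
      have k2 := hk 2 (by omega)
      have k3 := hk 3 (by omega)
      have k4 := hk 4 (by omega)
      simp only [zero_add, Nat.reduceAdd] at *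
      omega
    obtain ⟨a, ha, k1, k2⟩ := key
    refine Matrix.det_zero_of_column_eq (i := ⟨a, by omega⟩) (j := ⟨a + 1, by omega⟩) ?_ ?_
    · intro h
      have := congrArg Fin.val h
      simp at this
    · intro m
      change Y m (c ⟨a, _⟩) (c ⟨a + 1, _⟩) = Y m (c ⟨a + 1, _⟩) (c ⟨a + 2, _⟩)
      rw [Fin.ext k1, Fin.ext k2]

end Path

section Identities

variable (F : Type u) [Field F]

theorem identity_corner {n : ℕ} (hn : 3 ≤ n) (p : List (F × List ℕ))
    (hp : ∀ x : ℕ → Matrix (Fin n) (Fin n) F, evalF p x = 0)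
    (x : ℕ → Matrix (Fin 3) (Fin 3) F) : evalF p x = 0 := by
  obtain ⟨k, rfl⟩ := Nat.exists_eq_add_of_le hn
  let f : Matrix (Fin 3) (Fin 3) F →ₙₐ[F] Matrix (Fin (3 + k)) (Fin (3 + k)) F :=
    { toFun := fun A => Matrix.reindex finSumFinEquiv finSumFinEquiv
        (Matrix.fromBlocks A 0 0 (0 : Matrix (Fin k) (Fin k) F))
      map_smul' := by
        intro a A
        ext i j
        simp only [Matrix.reindex_apply, Matrix.submatrix_apply, Matrix.smul_apply]
        cases finSumFinEquiv.symm i <;> cases finSumFinEquiv.symm j <;> simp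
      map_zero' := by
        ext i j
        simp only [Matrix.reindex_apply, Matrix.submatrix_apply]
        cases finSumFinEquiv.symm i <;> cases finSumFinEquiv.symm j <;> simp
      map_add' := by
        intro A B
        ext i j
        simp only [Matrix.reindex_apply, Matrix.submatrix_apply, Matrix.add_apply]
        cases finSumFinEquiv.symm i <;> cases finSumFinEquiv.symm j <;> simp
      map_mul' := by
        intro A B
        simp only [Matrix.reindex_apply, Matrix.submatrix_mul_equiv, Matrix.fromBlocks_multiply]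
        simp }
  have hf : Function.Injective f := by
    intro A B h
    ext i j
    have h1 := congrFun (congrFun h (finSumFinEquiv (Sum.inl i))) (finSumFinEquiv (Sum.inl j))
    change Matrix.fromBlocks A 0 0 0 (finSumFinEquiv.symm (finSumFinEquiv (Sum.inl i)))
      (finSumFinEquiv.symm (finSumFinEquiv (Sum.inl j))) =
      Matrix.fromBlocks B 0 0 0 (finSumFinEquiv.symm (finSumFinEquiv (Sum.inl i)))
      (finSumFinEquiv.symm (finSumFinEquiv (Sum.inl j))) at h1
    simpa using h1
  apply hf
  rw [evalF_map, hp, map_zero]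

theorem identity_poly [Infinite F] {n : ℕ} {V : Type} (p : List (F × List ℕ))
    (hp : ∀ x : ℕ → Matrix (Fin n) (Fin n) F, evalF p x = 0)
    (x : ℕ → Matrix (Fin n) (Fin n) (MvPolynomial V F)) : evalF p x = 0 := by
  ext1 i j
  apply MvPolynomial.funext
  intro v
  have h := evalF_map ((MvPolynomial.aeval v : MvPolynomial V F →ₐ[F] F).mapMatrix :
    Matrix (Fin n) (Fin n) (MvPolynomial V F) →ₐ[F] Matrix (Fin n) (Fin n) F).toNonUnitalAlgHom p x
  rw [hp] at h
  have h1 := congrFun (congrFun h i) j
  change MvPolynomial.aeval v (evalF p x i j) = 0 at h1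
  rw [MvPolynomial.aeval_eq_eval] at h1
  rw [Matrix.zero_apply, map_zero]
  exact h1

end Identities

end Pool.Agent.H861R2.EqP
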