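import Mathlib
import Pool.Agent.H861R2.EqP.Inst
import Pool.Agent.H861R2.EqP.Tri

set_option autoImplicit false

/-!
The algebra generated by the letters belongs to `M(n)`, `n ≥ 3`, and to `S(n)`, `n ≥ 6`.
-/

namespace Pool.Agent.H861R2.EqP

open Pool.Agent.Helper599.Core

universe u

variable {Q : Type} (M : Sys Q Bool) (F : Type u) [Field F]

/-- augmentation -/
noncomputable def aug : FreeAlgebra F (Lt M) →ₐ[F] F := FreeAlgebra.lift F (fun _ => 0)

/-- the algebra generated by the operators of the letters -/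
noncomputable def AA : NonUnitalSubalgebra F (Module.End F (Vm M F)) where
  carrier := {T | ∃ g : FreeAlgebra F (Lt M), aug M F g = 0 ∧ rho M F g = T}
  zero_mem' := ⟨0, map_zero _, map_zero _⟩
  add_mem' := by
    rintro _ _ ⟨g, hg, rfl⟩ ⟨h, hh, rfl⟩
    exact ⟨g + h, by rw [map_add, hg, hh, add_zero], map_add _ _ _⟩
  mul_mem' := by
    rintro _ _ ⟨g, hg, rfl⟩ ⟨h, hh, rfl⟩
    exact ⟨g * h, by rw [map_mul, hg, zero_mul], map_mul _ _ _⟩
  smul_mem' := by
    rintro a _ ⟨g, hg, rfl⟩
    exact ⟨a • g, by rw [map_smul, hg, smul_zero], map_smul _ _ _⟩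

theorem op_mem_AA (l : Lt M) : op M F l ∈ AA M F := by
  refine ⟨FreeAlgebra.ι F l, ?_, ?_⟩
  · exact FreeAlgebra.lift_ι_apply _ _
  · exact FreeAlgebra.lift_ι_apply _ _

theorem AA_inM [Finite Q] [Infinite F] {n : ℕ} (hn : 3 ≤ n) : InM F n (AA M F) := by
  intro p hp x
  have h3 : ∀ y : ℕ → Matrix (Fin 3) (Fin 3) F, evalF p y = 0 := identity_corner F hn p hp
  have h4 := identity_poly F (V := Vr) p h3
  choose g hg using fun i => (x i).2
  have h5 : (T3 M).pi F (evalF p g) = 0 := by
    have := evalF_map ((T3 M).pi F).toNonUnitalAlgHom p g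
    rw [h4] at this
    exact this
  have h6 := rho_zero F (T3 M) _ h5
  apply Subtype.ext
  have h7 := evalF_map (NonUnitalSubalgebraClass.subtype (AA M F)) p x
  have h8 := evalF_map (rho M F).toNonUnitalAlgHom p g
  change rho M F (evalF p g) = evalF p (fun i => rho M F (g i)) at h8
  change ((evalF p x : AA M F) : Module.End F (Vm M F)) =
    evalF p (fun i => ((x i : AA M F) : Module.End F (Vm M F))) at h7
  have h9 : (fun i => rho M F (g i)) = fun i => ((x i : AA M F) : Module.End F (Vm M F)) :=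
    funext fun i => (hg i).2
  rw [h9, ← h7, h6] at h8
  exact h8.symm

theorem single_UT (a b : Fin 4) (hab : a ≤ b) (h0 : a = 0 → b ≠ 0) (h3 : a = 3 → b ≠ 3)
    (q : MvPolynomial Vr F) : UT (Matrix.single a b q) := by
  refine ⟨?_, ?_, ?_⟩
  · intro i j hij
    rw [Matrix.single_apply, if_neg]
    rintro ⟨rfl, rfl⟩
    exact absurd hab (not_le.2 hij)
  · rw [Matrix.single_apply, if_neg]
    rintro ⟨ha, hb⟩
    exact h0 ha hb
  · rw [Matrix.single_apply, if_neg]
    rintro ⟨ha, hb⟩
    exact h3 ha hb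

theorem pi4_tri [Finite Q] (g : FreeAlgebra F (Lt M)) :
    (∀ i j, j < i → (T4 M).pi F g i j = 0) ∧
      (T4 M).pi F g 0 0 = MvPolynomial.C (aug M F g) ∧
      (T4 M).pi F g 3 3 = MvPolynomial.C (aug M F g) := by
  refine FreeAlgebra.induction F (Lt M)
    (motive := fun g => (∀ i j, j < i → (T4 M).pi F g i j = 0) ∧
      (T4 M).pi F g 0 0 = MvPolynomial.C (aug M F g) ∧
      (T4 M).pi F g 3 3 = MvPolynomial.C (aug M F g)) ?_ ?_ ?_ ?_ g
  · intro r
    rw [AlgHom.commutes, AlgHom.commutes]
    refine ⟨?_, ?_, ?_⟩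
    · intro i j hij
      rw [Matrix.algebraMap_matrix_apply, if_neg (ne_of_gt hij)]
    · rw [Matrix.algebraMap_matrix_apply, if_pos rfl]
      rfl
    · rw [Matrix.algebraMap_matrix_apply, if_pos rfl]
      rfl
  · intro l
    have h1 : (T4 M).pi F (FreeAlgebra.ι F l) = (T4 M).mat F l := FreeAlgebra.lift_ι_apply _ _
    have h2 : aug M F (FreeAlgebra.ι F l) = 0 := FreeAlgebra.lift_ι_apply _ _
    rw [h1, h2, map_zero]
    have : UT ((T4 M).mat F l) := by
      apply single_UT
      · change a4 M l ≤ b4 M l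
        cases l <;> (simp only [a4, b4]; decide)
      · change a4 M l = 0 → b4 M l ≠ 0
        cases l <;> (simp only [a4, b4]; decide)
      · change a4 M l = 3 → b4 M l ≠ 3
        cases l <;> (simp only [a4, b4]; decide)
    exact this
  · rintro a b ⟨ha1, ha2, ha3⟩ ⟨hb1, hb2, hb3⟩
    rw [map_mul, map_mul]
    refine ⟨?_, ?_, ?_⟩
    · intro i j hij
      rw [Matrix.mul_apply]
      apply Finset.sum_eq_zero
      intro l _
      by_cases h : l < i
      · rw [ha1 _ _ h, zero_mul]
      · rw [hb1 l j (lt_of_lt_of_le hij (not_lt.1 h)), mul_zero]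
    · rw [Matrix.mul_apply, Finset.sum_eq_single 0, ha2, hb2, map_mul]
      · intro l _ hl
        rw [hb1 l 0 (Fin.pos_of_ne_zero hl), mul_zero]
      · intro h
        exact absurd (Finset.mem_univ _) h
    · rw [Matrix.mul_apply, Finset.sum_eq_single 3, ha3, hb3, map_mul]
      · intro l _ hl
        have : l < 3 := lt_of_le_of_ne (Fin.le_last l) hl
        rw [ha1 3 l this, zero_mul]
      · intro h
        exact absurd (Finset.mem_univ _) h
  · rintro a b ⟨ha1, ha2, ha3⟩ ⟨hb1, hb2, hb3⟩
    rw [map_add, map_add]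
    refine ⟨?_, ?_, ?_⟩
    · intro i j hij
      rw [Matrix.add_apply, ha1 i j hij, hb1 i j hij, add_zero]
    · rw [Matrix.add_apply, ha2, hb2, map_add]
    · rw [Matrix.add_apply, ha3, hb3, map_add]

theorem AA_inS [Finite Q] {n : ℕ} (hn : 6 ≤ n) : InS n (AA M F) := by
  intro y
  choose g hg using fun i => (y i).2
  have h5 : (T4 M).pi F (standard g) = 0 := by
    have := standard_map_alg ((T4 M).pi F).toNonUnitalAlgHom g
    have h6 := standard_UT hn (fun i => (T4 M).pi F (g i)) (fun i => by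
      obtain ⟨h1, h2, h3⟩ := pi4_tri M F (g i)
      rw [(hg i).1, map_zero] at h2 h3
      exact ⟨h1, h2, h3⟩)
    exact this.trans h6
  have h6 := rho_zero F (T4 M) _ h5
  apply Subtype.ext
  have h7 := standard_map_alg (NonUnitalSubalgebraClass.subtype (AA M F)) y
  have h8 := standard_map_alg (rho M F).toNonUnitalAlgHom g
  change rho M F (standard g) = standard (fun i => rho M F (g i)) at h8
  change ((standard y : AA M F) : Module.End F (Vm M F)) =
    standard (fun i => ((y i : AA M F) : Module.End F (Vm M F))) at h7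
  have h9 : (fun i => rho M F (g i)) = fun i => ((y i : AA M F) : Module.End F (Vm M F)) :=
    funext fun i => (hg i).2
  rw [h9, ← h7, h6] at h8
  exact h8.symm

end Pool.Agent.H861R2.EqP
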